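import Mathlib
import Pool.Agent.QL543.Fin
import Pool.Agent.QS543.Phi2

/-!
# The `3`-Selmer groups and the `3`-isogeny Selmer groups over `ℚ` in a family of cubic twists

`D` runs over the cube-free numbers prime to `3`, not `±1` modulo `9`, with exactly one prime factor
`≡ 2` modulo `3`, and `E_D : y² + D y = x³`. The points `O, (0, 0), (0, -D)` are the kernel of an isogeny
`φ` of degree three from `E_D` to the cubic `x³ + y³ = D`.

* `D` has `3 ^ (s + 1)` splittings (a finite set defined by cubic residues between the prime factors of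
  `D`) for some `s`. Then `dim Sel_φ(E_D/ℚ) = s` exactly, and `s + 1 ≤ dim Sel₃(E_D/ℚ) ≤ 2 s + 1`.
* So `dim Sel_φ(E_D/ℚ) = s` has density exactly `P_s`, with an error `O((log X)^(-1/25))` that is uniform
  in `s`, and all the moments converge, where
  `P_s = 3^(-s²) ∏_{i ≥ 1} (1 - 3^(-i)) / ∏_{i = 1}^s (1 - 3^(-i))²`.
* `dim Sel₃(E_D/ℚ) = 1` has density exactly `P_0 = ∏_{i ≥ 1} (1 - 3^(-i))`; the tails and all the moments
  of `dim Sel₃(E_D/ℚ)` are bounded from both sides.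

The passage from `ℚ(ω)` to `ℚ` is in `Pool/Agent/QS543` (helper543). The arithmetic over `ℚ(ω)` and the
counting of prime factors are joint work of many agents, see `Pool/Agent/Y703/CT`,
`Pool/Agent/Y703/CX`, `Pool/Agent/Y319/CT`, `Pool/Agent/Y809/CT`, `Pool/Agent/Y894/CT`,
`Pool/Agent/Y696/XL`, `Pool/Agent/R419/CF`, `Pool/Agent/R419/KL`, `Pool/Agent/QL543`.
-/

set_option autoImplicit false

open scoped Classical

namespace Pool.Agent.Results.MP_8cb858_nt.ThreeSelmerRational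

/-- the curve `E_D : y² + D y = x³` over `ℚ` -/
def E (D : ℕ) : WeierstrassCurve ℚ := { a₁ := 0, a₂ := 0, a₃ := (D : ℚ), a₄ := 0, a₆ := 0 }

/-- the points over the algebraic closure `ℚ̄` -/
abbrev Pts (W : WeierstrassCurve ℚ) : Type :=
  Pool.Agent.W262.SH.Pt W (AlgebraicClosure ℚ)

/-- the action of the Galois group on the points -/
noncomputable abbrev act (W : WeierstrassCurve ℚ)
    (σ : AlgebraicClosure ℚ ≃ₐ[ℚ] AlgebraicClosure ℚ) : Pts W →+ Pts W :=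
  Pool.Agent.W262.SH.act W σ.toAlgHom

/-- the continuous cocycles of the Galois group with values in `W(ℚ̄)` whose restriction to the absolute
Galois group of `ℚ_v` is a coboundary of a point of `W`, for all places `v` of `ℚ` -/
def LocTrivCoc (W : WeierstrassCurve ℚ)
    (f : (AlgebraicClosure ℚ ≃ₐ[ℚ] AlgebraicClosure ℚ) → Pts W) : Prop :=
  Pool.Agent.W262.SH.IsCoc W f ∧
    (∀ (p : ℕ) [Fact p.Prime], Pool.Agent.W262.SH.LocTriv W ℚ_[p] f) ∧
    Pool.Agent.W262.SH.LocTriv W ℝ f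

/-- those with values in the points killed by three -/
def Cocycles3 (W : WeierstrassCurve ℚ) : Type :=
  {f : (AlgebraicClosure ℚ ≃ₐ[ℚ] AlgebraicClosure ℚ) → Pts W //
    LocTrivCoc W f ∧ ∀ σ, 3 • f σ = 0}

/-- two such cocycles have the same class: their difference is `σ ↦ σ P - P` with `3 P = 0` -/
def Coh (W : WeierstrassCurve ℚ) (f g : Cocycles3 W) : Prop :=
  ∃ P : Pts W, 3 • P = 0 ∧ ∀ σ, f.1 σ - g.1 σ = act W σ P - P

/-- the `3`-Selmer group of `W` over `ℚ`, the set of the classes -/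
def Sel3 (W : WeierstrassCurve ℚ) : Type := Quot (Coh W)

/-- the dimension of the `3`-Selmer group of `E_D` over the field with three elements -/
noncomputable def dim (D : ℕ) : ℕ := Nat.log 3 (Nat.card (Sel3 (E D)))

/-- the origin and the points with `x = 0`; for `E_D` these are the three points `O, (0, 0), (0, -D)`,
the kernel of the isogeny `φ` -/
def InKer {W : WeierstrassCurve ℚ} (P : Pts W) : Prop :=
  P = 0 ∨ ∃ (y : AlgebraicClosure ℚ)
    (h : (W.baseChange (AlgebraicClosure ℚ)).toAffine.Nonsingular 0 y), P = .some 0 y h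

/-- the Selmer group of `φ`: the continuous, locally trivial cocycles with values in the kernel of `φ`
(whose points are rational, so that there are no coboundaries) -/
def SelPhi (D : ℕ) : Type :=
  {f : (AlgebraicClosure ℚ ≃ₐ[ℚ] AlgebraicClosure ℚ) → Pts (E D) //
    LocTrivCoc (E D) f ∧ ∀ σ, InKer (f σ)}

/-- the dimension of the Selmer group of `φ` -/
noncomputable def dimPhi (D : ℕ) : ℕ := Nat.log 3 (Nat.card (SelPhi D))

/-- the class: `D` cube-free, prime to `3`, not `±1` modulo `9`, exactly one prime factor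
congruent to `2` modulo `3` -/
def Class (D : ℕ) : Prop :=
  D ≠ 0 ∧ (∀ p : ℕ, p.Prime → ¬ p ^ 3 ∣ D) ∧ ¬ 3 ∣ D ∧ D % 9 ≠ 1 ∧ D % 9 ≠ 8 ∧
    ∃ q : ℕ, q.Prime ∧ q % 3 = 2 ∧ q ∣ D ∧ ∀ p : ℕ, p.Prime → p ∣ D → p ≠ q → p % 3 = 1

/-- the numbers of the class up to `X` -/
noncomputable def Cl (X : ℕ) : Finset ℕ := (Finset.Icc 1 X).filter Class

/-- the splittings of `D`: the families `(d₀, d₁, d₂)` of pairwise coprime numbers with product `D`
such that `d₁ d₂²`, `d₂ d₀²`, `d₀ d₁²` are cubes modulo the primes dividing `d₀`, `d₁`, `d₂` -/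
def Splittings (D : ℕ) : Set (ZMod 3 → ℕ) :=
  {d | ∏ c, d c = D ∧ (∀ c c', c ≠ c' → Nat.Coprime (d c) (d c')) ∧
    ∀ (c : ZMod 3) (p : ℕ), p.Prime → p ∣ d c →
      ∃ x : ℤ, (p : ℤ) ∣ (d (c + 1) : ℤ) * (d (c + 2) : ℤ) ^ 2 - x ^ 3}

/-- the number `P_s = 3^(-s²) ∏_{i ≥ 1} (1 - 3^(-i)) / ∏_{i = 1}^s (1 - 3^(-i))²` -/
noncomputable def P (s : ℕ) : ℝ :=
  (1 / 3 : ℝ) ^ (s ^ 2) * (∏' i : ℕ, (1 - (1 / 3 : ℝ) ^ (i + 1))) /
    (∏ i ∈ Finset.range s, (1 - (1 / 3 : ℝ) ^ (i + 1))) ^ 2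

theorem class_iff (D : ℕ) : Class D ↔ Pool.Agent.Y703.CT.Cls D := by
  unfold Class Pool.Agent.Y703.CT.Cls Pool.Agent.Y703.CT.Base
  constructor
  · rintro ⟨h1, h2, h3, h4, h5, h6⟩
    exact ⟨⟨h1, h3, h2⟩, h4, h5, h6⟩
  · rintro ⟨⟨h1, h3, h2⟩, h4, h5, h6⟩
    exact ⟨h1, h2, h3, h4, h5, h6⟩

theorem Cl_eq (X : ℕ) : Cl X = (Finset.Icc 1 X).filter Pool.Agent.Y703.CT.Cls := by
  unfold Cl
  exact Finset.filter_congr fun D _ => class_iff D

theorem filter_eq (X : ℕ) (T : ℕ → Prop) {h1 : DecidablePred T}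
    {h2 : DecidablePred fun D => Pool.Agent.Y703.CT.Cls D ∧ T D} :
    (((@Finset.filter ℕ T h1 (Cl X)).card : ℕ) : ℝ) =
      (((@Finset.filter ℕ (fun D => Pool.Agent.Y703.CT.Cls D ∧ T D) h2 (Finset.Icc 1 X)).card : ℕ)
        : ℝ) := by
  congr 2
  ext D
  rw [Finset.mem_filter, Finset.mem_filter, Cl_eq, Finset.mem_filter, and_assoc]

theorem E_eq (D : ℕ) : Pool.Agent.Y703.CT.EQ (Pool.Agent.Y703.CT.WD D) = E D := by
  unfold Pool.Agent.Y703.CT.EQ Pool.Agent.Y703.CT.WD E WeierstrassCurve.map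
  simp

/-- having the same class is an equivalence relation -/
theorem coh_equivalence (W : WeierstrassCurve ℚ) : Equivalence (Coh W) where
  refl f := ⟨0, smul_zero _, fun σ => by rw [sub_self, map_zero, sub_zero]⟩
  symm := by
    rintro f g ⟨P, h1, h2⟩
    refine ⟨-P, by rw [smul_neg, h1, neg_zero], fun σ => ?_⟩
    rw [map_neg, ← neg_sub, h2 σ]
    abel
  trans := by
    rintro f g h ⟨P, h1, h2⟩ ⟨Q, h3, h4⟩
    refine ⟨P + Q, by rw [smul_add, h1, h3, add_zero], fun σ => ?_⟩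
    rw [map_add, ← sub_add_sub_cancel, h2 σ, h4 σ]
    abel

/-- the cocycle, in the form of the helper files -/
def toZ {W : WeierstrassCurve ℚ} (f : Cocycles3 W) : Pool.Agent.QS543.selZ W :=
  ⟨⟨f.1, f.2.1⟩, f.2.2⟩

theorem toZ_eq_iff {W : WeierstrassCurve ℚ} (f g : Cocycles3 W) :
    (QuotientAddGroup.mk (toZ f) : Pool.Agent.QS543.Sel3 W) = QuotientAddGroup.mk (toZ g) ↔
      Coh W f g := by
  rw [← sub_eq_zero, ← QuotientAddGroup.mk_sub, Pool.Agent.QS543.sel_mk_zero]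
  rfl

/-- the class, in the form of the helper files -/
noncomputable def toSel {W : WeierstrassCurve ℚ} : Sel3 W → Pool.Agent.QS543.Sel3 W :=
  Quot.lift (fun f => QuotientAddGroup.mk (toZ f)) fun f g h => (toZ_eq_iff f g).2 h

theorem toSel_bij (W : WeierstrassCurve ℚ) : Function.Bijective (toSel (W := W)) := by
  constructor
  · rintro ⟨f⟩ ⟨g⟩ h
    exact Quot.sound ((toZ_eq_iff f g).1 h)
  · intro x
    obtain ⟨f, rfl⟩ := QuotientAddGroup.mk_surjective x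
    exact ⟨Quot.mk _ ⟨f.1.1, f.1.2, f.2⟩, rfl⟩

/-- the classes of the isogeny, in the form of the helper files -/
def toPhi (D : ℕ) : SelPhi D ≃ Pool.Agent.QS543.SelPhi (E D) where
  toFun f := ⟨⟨f.1, f.2.1⟩, f.2.2⟩
  invFun f := ⟨f.1.1, f.1.2, f.2⟩
  left_inv _ := rfl
  right_inv _ := rfl

/-- the arithmetic part, for the number `s` -/
theorem arith {D : ℕ} (hD : Pool.Agent.Y703.CT.Cls D) {s : ℕ}
    (hs : (Pool.Agent.QL543.Spl D).ncard = 3 ^ (s + 1)) :
    (Finite (SelPhi D) ∧ Nat.card (SelPhi D) = 3 ^ s ∧ dimPhi D = s) ∧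
      Finite (Sel3 (E D)) ∧ Nat.card (Sel3 (E D)) = 3 ^ dim D ∧ s + 1 ≤ dim D ∧
      dim D ≤ 2 * s + 1 := by
  have h := Pool.Agent.QS543.main3 hD hs
  rw [E_eq] at h
  obtain ⟨⟨h1, h2⟩, h3, h4, h5⟩ := h
  have e1 : Nat.card (SelPhi D) = Nat.card (Pool.Agent.QS543.SelPhi (E D)) :=
    Nat.card_congr (toPhi D)
  have e2 : Nat.card (Sel3 (E D)) = Nat.card (Pool.Agent.QS543.Sel3 (E D)) :=
    Nat.card_congr (Equiv.ofBijective _ (toSel_bij (E D)))
  have h6 : Nat.card (Sel3 (E D)) = 3 ^ dim D := by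
    have h7 := Pool.Agent.QS543.card_three (Pool.Agent.QS543.sel_three (W := E D))
    rw [← e2] at h7
    exact h7
  have h2' : Nat.card (SelPhi D) = 3 ^ s := e1.trans h2
  have h4' : 3 ^ (s + 1) ≤ Nat.card (Sel3 (E D)) := by rw [e2]; exact h4
  have h5' : Nat.card (Sel3 (E D)) ≤ 3 ^ (2 * s + 1) := by rw [e2]; exact h5
  rw [h6] at h4' h5'
  refine ⟨⟨Finite.of_equiv _ (toPhi D).symm, h2', ?_⟩,
    Finite.of_equiv _ (Equiv.ofBijective _ (toSel_bij (E D))).symm, h6,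
    (Nat.pow_le_pow_iff_right (by norm_num)).1 h4',
    (Nat.pow_le_pow_iff_right (by norm_num)).1 h5'⟩
  unfold dimPhi
  rw [h2', Nat.log_pow (by norm_num)]

open Filter in
theorem ev_iff {p : ℕ → Prop} (h : ∀ᶠ X : ℕ in atTop, p X) : ∃ X₀ : ℕ, ∀ X : ℕ, X₀ ≤ X → p X :=
  eventually_atTop.1 h

open Filter in
/-- the number of the `D` up to `X` is positive -/
theorem N_pos : ∀ᶠ X : ℕ in atTop,
    (0 : ℝ) < (((Finset.Icc 1 X).filter Pool.Agent.Y703.CT.Cls).card : ℝ) := by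
  obtain ⟨c, hc, X₀, hlow⟩ := Pool.Agent.R419.CF.low
  filter_upwards [eventually_ge_atTop X₀, Pool.Agent.Y703.CX.ev_eL 1] with X hX0 hl
  have hl0 : 0 < Pool.Agent.Y703.CX.eL X := by linarith
  have hXp' : (0 : ℝ) < X := by exact_mod_cast Pool.Agent.Y703.CX.X_pos hl0
  refine lt_of_lt_of_le ?_ (hlow X hX0)
  have : 0 < Real.sqrt (Real.log X) := by
    rw [Pool.Agent.Y703.CX.logX_eq hl0]
    exact Real.sqrt_pos.2 (Real.exp_pos _)
  positivity

open Filter in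
/-- the averages of a function of the exponent -/
theorem mom_gen {f : ℕ → ℝ} (hf : ∀ s, 0 ≤ f s) {A : ℝ} {k : ℕ} (hA0 : 0 ≤ A)
    (hA : ∀ s, f s ≤ A * ((s : ℝ) + 1) ^ k) (ε : ℝ) (hε : 0 < ε) : ∀ᶠ X : ℕ in atTop,
    (∑' s, f s * P s - ε) * (((Finset.Icc 1 X).filter Pool.Agent.Y703.CT.Cls).card : ℝ) ≤
      ∑ D ∈ (Finset.Icc 1 X).filter Pool.Agent.Y703.CT.Cls, f (Pool.Agent.QL543.sd D) ∧
    ∑ D ∈ (Finset.Icc 1 X).filter Pool.Agent.Y703.CT.Cls, f (Pool.Agent.QL543.sd D) ≤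
      (∑' s, f s * P s + ε) *
        (((Finset.Icc 1 X).filter Pool.Agent.Y703.CT.Cls).card : ℝ) := by
  have h := Pool.Agent.QL543.moments hf hA0 hA
  have h1 := h.eventually (gt_mem_nhds (show ∑' s, f s * P s < ∑' s, f s * P s + ε by linarith))
  have h2 := h.eventually (lt_mem_nhds (show ∑' s, f s * P s - ε < ∑' s, f s * P s by linarith))
  filter_upwards [h1, h2, N_pos] with X h3 h4 hN
  rw [div_lt_iff₀ hN] at h3
  rw [lt_div_iff₀ hN] at h4
  exact ⟨h4.le, h3.le⟩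

/-- the numerical bounds -/
theorem num_low : 1.459 < ∑' s : ℕ, ((s : ℝ) + 1) ^ 1 * P s := by
  have hs : Summable fun s : ℕ => ((s : ℝ) + 1) ^ 1 * P s :=
    Pool.Agent.QL543.pr_summable (f := fun s : ℕ => ((s : ℝ) + 1) ^ 1) (fun s => by positivity)
      (A := 1) (k := 1) zero_le_one (fun s => by rw [one_mul])
  have hs1 : Summable fun s : ℕ => (s : ℝ) * P s := by
    have h := hs.sub Pool.Agent.QL543.pr_sum.summable
    refine h.congr fun s => ?_
    show ((s : ℝ) + 1) ^ 1 * P s - P s = _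
    ring
  have e : ∑' s : ℕ, ((s : ℝ) + 1) ^ 1 * P s = ∑' s : ℕ, (s : ℝ) * P s + 1 := by
    have h1 : ∑' s : ℕ, P s = 1 := Pool.Agent.QL543.pr_sum.tsum_eq
    have h2 : Summable P := Pool.Agent.QL543.pr_sum.summable
    have h3 := hs1.tsum_add h2
    rw [h1] at h3
    rw [← h3]
    exact tsum_congr fun s => by ring
  rw [e]
  have h3 : ∑ s ∈ Finset.range 3, (s : ℝ) * P s ≤ ∑' s : ℕ, (s : ℝ) * P s :=
    hs1.sum_le_tsum _ fun s _ => mul_nonneg (Nat.cast_nonneg s) (Pool.Agent.QL543.pr_nonneg s)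
  rw [Finset.sum_range_succ, Finset.sum_range_succ, Finset.sum_range_succ,
    Finset.sum_range_zero] at h3
  have p1 : P 1 = 3 / 4 * Pool.Agent.Y703.CX.c3 := Pool.Agent.QL543.pr_one
  have p2 : P 2 = 9 / 256 * Pool.Agent.Y703.CX.c3 := Pool.Agent.QL543.pr_two
  rw [p1, p2] at h3
  push_cast at h3
  have h4 := Pool.Agent.QL543.c3_gt
  norm_num at h3 h4 ⊢
  linarith

theorem num_up : ∑' s : ℕ, (2 * (s : ℝ) + 1) ^ 1 * P s < 1.92 := by
  have hs1 : Summable fun s : ℕ => (2 * (s : ℝ)) ^ 1 * P s := Pool.Agent.QL543.mom_sum 1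
  have h2 : Summable P := Pool.Agent.QL543.pr_sum.summable
  have e : ∑' s : ℕ, (2 * (s : ℝ) + 1) ^ 1 * P s = ∑' s : ℕ, (2 * (s : ℝ)) ^ 1 * P s + 1 := by
    have h1 : ∑' s : ℕ, P s = 1 := Pool.Agent.QL543.pr_sum.tsum_eq
    have h3 := hs1.tsum_add h2
    rw [h1] at h3
    rw [← h3]
    exact tsum_congr fun s => by ring
  have h3 : ∑' s : ℕ, (2 * (s : ℝ)) ^ 1 * P s < 0.92 := Pool.Agent.QL543.mom_one
  rw [e]
  norm_num at h3 ⊢
  linarith

open Filter in
/-- **Theorem.** For every `D` of the class there is an `s` such that `D` has `3 ^ (s + 1)` splittings,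
`#Sel_φ(E_D/ℚ) = 3 ^ s` and `s + 1 ≤ dim Sel₃(E_D/ℚ) ≤ 2 s + 1`. The number of the `D` of the class up to
`X` is at least `c X / √(log X)`. The proportion of the `D ≤ X` with `dim Sel_φ(E_D/ℚ) = s` is
`P_s + O((log X)^(-1/25))`, uniformly in `s`, and the proportion with `dim Sel₃(E_D/ℚ) = 1` is
`P_0 + O((log X)^(-1/25))`. The proportion with `dim Sel₃(E_D/ℚ) ≥ m + 1` is at least
`∑_{i ≥ m} P_i - A m (log X)^(-1/25)`, and the one with `dim Sel₃(E_D/ℚ) ≥ 2 m + 2` is at most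
`∑_{i ≥ m + 1} P_i + A (log X)^(-1/30)`. For every `k` the average of `(dim Sel_φ)^k` converges to
`∑ s^k P_s`, and the lower and the upper limit of the average of `(dim Sel₃)^k` are between
`∑ (s + 1)^k P_s` and `∑ (2 s + 1)^k P_s`, which is `(1.459, 1.92)` for `k = 1`. -/
theorem result :
    -- the Selmer groups
    (∀ D : ℕ, Class D → ∃ s : ℕ, (Splittings D).ncard = 3 ^ (s + 1) ∧
      (Finite (SelPhi D) ∧ Nat.card (SelPhi D) = 3 ^ s ∧ dimPhi D = s) ∧
      Finite (Sel3 (E D)) ∧ Nat.card (Sel3 (E D)) = 3 ^ dim D ∧ s + 1 ≤ dim D ∧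
      dim D ≤ 2 * s + 1) ∧
    -- the size of the class
    (∃ c : ℝ, 0 < c ∧ ∃ X₀ : ℕ, ∀ X : ℕ, X₀ ≤ X →
      c * X / Real.sqrt (Real.log X) ≤ ((Cl X).card : ℝ)) ∧
    -- the limit distribution
    ((∀ s : ℕ, 0 ≤ P s) ∧ HasSum P 1 ∧
      ∀ s : ℕ, 1 - ∑ i ∈ Finset.range s, P i ≤ 3 * (1 / 3 : ℝ) ^ (s ^ 2)) ∧
    -- the laws
    (∃ (A : ℝ) (X₀ : ℕ), ∀ X : ℕ, X₀ ≤ X →
      (∀ s : ℕ, |(((Cl X).filter fun D => dimPhi D = s).card : ℝ) - P s * ((Cl X).card : ℝ)| ≤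
        A * (Real.log X) ^ (-(1 / 25) : ℝ) * ((Cl X).card : ℝ)) ∧
      |(((Cl X).filter fun D => dim D = 1).card : ℝ) - P 0 * ((Cl X).card : ℝ)| ≤
        A * (Real.log X) ^ (-(1 / 25) : ℝ) * ((Cl X).card : ℝ) ∧
      (∀ m : ℕ, ((1 - ∑ i ∈ Finset.range m, P i) - A * m * (Real.log X) ^ (-(1 / 25) : ℝ)) *
        ((Cl X).card : ℝ) ≤ (((Cl X).filter fun D => m + 1 ≤ dim D).card : ℝ)) ∧
      (∀ m : ℕ, (((Cl X).filter fun D => 2 * m + 2 ≤ dim D).card : ℝ) ≤
        ((1 - ∑ i ∈ Finset.range (m + 1), P i) + A * (Real.log X) ^ (-(1 / 30) : ℝ)) *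
          ((Cl X).card : ℝ))) ∧
    -- all moments
    (∀ k : ℕ, (Summable fun s : ℕ => (2 * (s : ℝ) + 1) ^ k * P s) ∧
      Tendsto (fun X : ℕ => (∑ D ∈ Cl X, (dimPhi D : ℝ) ^ k) / ((Cl X).card : ℝ)) atTop
        (nhds (∑' s : ℕ, (s : ℝ) ^ k * P s)) ∧
      ∀ ε : ℝ, 0 < ε → ∃ X₀ : ℕ, ∀ X : ℕ, X₀ ≤ X →
        (∑' s : ℕ, ((s : ℝ) + 1) ^ k * P s - ε) * ((Cl X).card : ℝ) ≤
          ∑ D ∈ Cl X, (dim D : ℝ) ^ k ∧
        ∑ D ∈ Cl X, (dim D : ℝ) ^ k ≤
          (∑' s : ℕ, (2 * (s : ℝ) + 1) ^ k * P s + ε) * ((Cl X).card : ℝ)) ∧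
    -- numerical values
    0.56 < P 0 ∧ P 0 < 0.5602 ∧ 1.459 < ∑' s : ℕ, ((s : ℝ) + 1) ^ 1 * P s ∧
      ∑' s : ℕ, (2 * (s : ℝ) + 1) ^ 1 * P s < 1.92 := by
  have har : ∀ D : ℕ, Pool.Agent.Y703.CT.Cls D → dimPhi D = Pool.Agent.QL543.sd D ∧
      Pool.Agent.QL543.sd D + 1 ≤ dim D ∧ dim D ≤ 2 * Pool.Agent.QL543.sd D + 1 := by
    intro D hD
    obtain ⟨⟨-, -, h1⟩, -, -, h2, h3⟩ := arith hD (Pool.Agent.QL543.sd_spec hD)
    exact ⟨h1, h2, h3⟩
  have h0 : P 0 = Pool.Agent.Y703.CX.c3 := by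
    unfold P Pool.Agent.Y703.CX.c3
    norm_num
  have h1k : ∀ (k s : ℕ), ((s : ℝ) + 1) ^ k ≤ 1 * ((s : ℝ) + 1) ^ k := fun k s => by
    rw [one_mul]
  have h2k : ∀ (k s : ℕ), (2 * (s : ℝ) + 1) ^ k ≤ 2 ^ k * ((s : ℝ) + 1) ^ k := fun k s => by
    rw [← mul_pow]
    exact pow_le_pow_left₀ (by positivity) (by linarith) k
  have h3k : ∀ (k s : ℕ), (s : ℝ) ^ k ≤ 1 * ((s : ℝ) + 1) ^ k := fun k s => by
    rw [one_mul]
    exact pow_le_pow_left₀ (by positivity) (by linarith) k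
  refine ⟨?_, ?_, ⟨Pool.Agent.QL543.pr_nonneg, Pool.Agent.QL543.pr_sum,
    Pool.Agent.QL543.pr_tail⟩, ?_, ?_, ?_, ?_, num_low, num_up⟩
  · intro D hD
    have hD' := (class_iff D).1 hD
    exact ⟨Pool.Agent.QL543.sd D, Pool.Agent.QL543.sd_spec hD',
      arith hD' (Pool.Agent.QL543.sd_spec hD')⟩
  · obtain ⟨c, hc, X₀, h⟩ := Pool.Agent.R419.CF.low
    refine ⟨c, hc, X₀, fun X hX => ?_⟩
    rw [Cl_eq]
    exact h X hX
  · obtain ⟨C1, hC1, h1⟩ := Pool.Agent.QL543.law_rate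
    obtain ⟨C2, hC2, h2⟩ := Pool.Agent.QL543.tail_sd
    obtain ⟨X₀, h⟩ := ev_iff (h1.and (h2.and (Pool.Agent.Y703.CX.ev_eL 1)))
    refine ⟨C1 + C2, X₀, fun X hX => ?_⟩
    obtain ⟨h3, h4, h5⟩ := h X hX
    rw [Pool.Agent.Y703.CX.rpow_eL (by linarith), Pool.Agent.Y703.CX.rpow_eL (by linarith)]
    obtain ⟨N, hN⟩ : ∃ N : ℝ, N =
      (((Finset.Icc 1 X).filter Pool.Agent.Y703.CT.Cls).card : ℝ) := ⟨_, rfl⟩
    have hN0 : 0 ≤ N := by rw [hN]; exact Nat.cast_nonneg _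
    rw [← hN] at h3 h4
    have hClN : ((Cl X).card : ℝ) = N := by rw [hN, Cl_eq]
    rw [hClN]
    obtain ⟨t, ht⟩ : ∃ t, t = Real.exp (-(1 / 25) * Pool.Agent.Y703.CX.eL X) := ⟨_, rfl⟩
    have ht0 : 0 < t := by rw [ht]; exact Real.exp_pos _
    rw [← ht] at h3 ⊢
    obtain ⟨t', ht'⟩ : ∃ t', t' = Real.exp (-(1 / 30) * Pool.Agent.Y703.CX.eL X) := ⟨_, rfl⟩
    have ht0' : 0 < t' := by rw [ht']; exact Real.exp_pos _
    rw [← ht'] at h4 ⊢
    have hle : C1 * t * N ≤ (C1 + C2) * t * N := by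
      apply mul_le_mul_of_nonneg_right _ hN0
      apply mul_le_mul_of_nonneg_right _ ht0.le
      linarith
    have hphi : ∀ (s : ℕ) (T : ℕ → Prop) {h1 : DecidablePred T},
        (∀ D, Pool.Agent.Y703.CT.Cls D → (T D ↔ Pool.Agent.QL543.sd D = s)) →
        |(((@Finset.filter ℕ T h1 (Cl X)).card : ℕ) : ℝ) - P s * N| ≤ (C1 + C2) * t * N := by
      intro s T h1 hT
      refine le_trans (le_of_eq ?_) ((h3 s).trans hle)
      rw [filter_eq X T]
      have e : (Finset.Icc 1 X).filter (fun D => Pool.Agent.Y703.CT.Cls D ∧ T D) =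
          (Finset.Icc 1 X).filter (fun D => Pool.Agent.Y703.CT.Cls D ∧
            Pool.Agent.QL543.SR s D) := by
        refine Finset.filter_congr fun D _ => ?_
        refine and_congr_right fun hD => ?_
        rw [hT D hD, Pool.Agent.QL543.sr_iff hD]
      rw [e]
      rfl
    refine ⟨fun s => hphi s _ fun D hD => ?_, hphi 0 _ fun D hD => ?_, fun m => ?_, fun m => ?_⟩
    · rw [(har D hD).1]
    · have := har D hD
      omega
    · have h6 : ((Cl X).filter fun D => ¬ m + 1 ≤ dim D) ⊆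
          (Finset.range m).biUnion fun i => (Finset.Icc 1 X).filter fun D =>
            Pool.Agent.Y703.CT.Cls D ∧ Pool.Agent.QL543.SR i D := by
        intro D hD
        rw [Finset.mem_filter, Cl_eq, Finset.mem_filter] at hD
        obtain ⟨⟨hD1, hD2⟩, hD3⟩ := hD
        have h7 := har D hD2
        rw [Finset.mem_biUnion]
        refine ⟨Pool.Agent.QL543.sd D, Finset.mem_range.2 (by omega), ?_⟩
        rw [Finset.mem_filter]
        exact ⟨hD1, hD2, (Pool.Agent.QL543.sr_iff hD2 _).2 rfl⟩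
      have h7 : (((Cl X).filter fun D => ¬ m + 1 ≤ dim D).card : ℝ) ≤
          ∑ i ∈ Finset.range m, (P i * N + C1 * t * N) := by
        have h8 : (((Cl X).filter fun D => ¬ m + 1 ≤ dim D).card : ℝ) ≤
            ∑ i ∈ Finset.range m, (((Finset.Icc 1 X).filter fun D =>
              Pool.Agent.Y703.CT.Cls D ∧ Pool.Agent.QL543.SR i D).card : ℝ) := by
          exact_mod_cast (Finset.card_le_card h6).trans Finset.card_biUnion_le
        refine h8.trans (Finset.sum_le_sum fun i _ => ?_)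
        have h9 := (abs_le.1 (h3 i)).2
        have h10 : P i = Pool.Agent.QL543.pr i := rfl
        rw [h10]
        linarith
      have h8 : (((Cl X).filter fun D => m + 1 ≤ dim D).card : ℝ) +
          (((Cl X).filter fun D => ¬ m + 1 ≤ dim D).card : ℝ) = N := by
        rw [← hClN]
        exact_mod_cast Finset.card_filter_add_card_filter_not (s := Cl X) (fun D => m + 1 ≤ dim D)
      rw [Finset.sum_add_distrib, Finset.sum_const, Finset.card_range, nsmul_eq_mul,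
        ← Finset.sum_mul] at h7
      have h9 : (m : ℝ) * (C1 * t * N) ≤ (m : ℝ) * ((C1 + C2) * t * N) :=
        mul_le_mul_of_nonneg_left hle (Nat.cast_nonneg m)
      have h10 : ((1 - ∑ i ∈ Finset.range m, P i) - (C1 + C2) * m * t) * N =
          N - (∑ i ∈ Finset.range m, P i) * N - (m : ℝ) * ((C1 + C2) * t * N) := by ring
      rw [h10]
      linarith
    · have h6 : (((Cl X).filter fun D => 2 * m + 2 ≤ dim D).card : ℝ) ≤
          (((Finset.Icc 1 X).filter fun D => Pool.Agent.Y703.CT.Cls D ∧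
            m < Pool.Agent.QL543.sd D).card : ℝ) := by
        have h7 : ((Cl X).filter fun D => 2 * m + 2 ≤ dim D) ⊆
            (Finset.Icc 1 X).filter fun D => Pool.Agent.Y703.CT.Cls D ∧
              m < Pool.Agent.QL543.sd D := by
          intro D hD
          rw [Finset.mem_filter, Cl_eq, Finset.mem_filter] at hD
          obtain ⟨⟨hD1, hD2⟩, hD3⟩ := hD
          have h7 := har D hD2
          rw [Finset.mem_filter]
          exact ⟨hD1, hD2, by omega⟩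
        exact_mod_cast Finset.card_le_card h7
      refine h6.trans ((h4 m).trans ?_)
      apply mul_le_mul_of_nonneg_right _ hN0
      have h8 : C2 * t' ≤ (C1 + C2) * t' := mul_le_mul_of_nonneg_right (by linarith) ht0'.le
      have h9 : ∑ i ∈ Finset.range (m + 1), P i =
        ∑ i ∈ Finset.range (m + 1), Pool.Agent.QL543.pr i := rfl
      rw [h9]
      linarith
  · intro k
    refine ⟨Pool.Agent.QL543.pr_summable (f := fun s : ℕ => (2 * (s : ℝ) + 1) ^ k)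
      (fun s => by positivity) (A := 2 ^ k) (k := k) (by positivity) (h2k k), ?_, fun ε hε => ?_⟩
    · have h := Pool.Agent.QL543.moments (f := fun s : ℕ => (s : ℝ) ^ k) (fun s => by positivity)
        (A := 1) (k := k) zero_le_one (h3k k)
      refine h.congr fun X => ?_
      rw [Cl_eq]
      congr 1
      refine Finset.sum_congr rfl fun D hD => ?_
      rw [(har D (Finset.mem_filter.1 hD).2).1]
    · obtain ⟨X₀, h⟩ := ev_iff
        ((mom_gen (f := fun s : ℕ => ((s : ℝ) + 1) ^ k) (fun s => by positivity)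
          (A := 1) (k := k) zero_le_one (h1k k) ε hε).and
        (mom_gen (f := fun s : ℕ => (2 * (s : ℝ) + 1) ^ k) (fun s => by positivity)
          (A := 2 ^ k) (k := k) (by positivity) (h2k k) ε hε))
      refine ⟨X₀, fun X hX => ?_⟩
      obtain ⟨⟨h1, -⟩, -, h2⟩ := h X hX
      rw [Cl_eq]
      refine ⟨h1.trans (Finset.sum_le_sum fun D hD => ?_),
        (Finset.sum_le_sum fun D hD => ?_).trans h2⟩
      · have h3 := har D (Finset.mem_filter.1 hD).2
        refine pow_le_pow_left₀ (by positivity) ?_ k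
        exact_mod_cast h3.2.1
      · have h3 := har D (Finset.mem_filter.1 hD).2
        refine pow_le_pow_left₀ (by positivity) ?_ k
        exact_mod_cast h3.2.2
  · rw [h0]
    exact Pool.Agent.QL543.c3_gt
  · rw [h0]
    exact Pool.Agent.QL543.c3_up

end Pool.Agent.Results.MP_8cb858_nt.ThreeSelmerRational
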